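import Pool.Agent.Y588.PC.Turing
import Pool.Agent.Helper67.SY.Map

set_option autoImplicit false

namespace Pool.Agent.Helper67.SY

open Encodable
open Pool.Agent.Helper227 Pool.Agent.H685R3 Pool.Agent.Y588.PD Pool.Agent.Y588.PC

variable {s : List Bool → Bool} {κ : (ℕ → Bool) → ℕ → Bool} {β : ℕ}

/-- The sandwich theorem: the rule `K` may be any set of plays which contains all plays in which
player I plays a code, and in which player I plays a replaceable sequence whenever player II plays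
a code. -/
theorem main {R : (ℕ → Bool) → (ℕ → Bool) → Prop} (hR : GenericallyCountable R) :
    ∃ κ₀ κ₁ : (ℕ → Bool) → ℕ → Bool, Continuous κ₀ ∧ Continuous κ₁ ∧
      Function.Injective κ₀ ∧ (∀ z, κ₁ z ∉ Replaceable R κ₀) ∧
      ∀ K : Set (ℕ → Bool), (∀ x, part 0 x ∈ Set.range κ₀ → x ∈ K) →
        (∀ x ∈ K, part 1 x ∈ Set.range κ₁ → part 0 x ∈ Replaceable R κ₀) →
        ∀ A : Set (ℕ → Bool), InvariantFor R (CodedFor R κ₀ κ₁ A) ∧
          (WinsI (K ∩ CodedFor R κ₀ κ₁ A) ↔ WinsI A) ∧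
          (WinsII (K ∩ CodedFor R κ₀ κ₁ A) ↔ WinsII A) := by
  obtain ⟨hEq, g, hg, hP⟩ := hR
  obtain ⟨κ₀, κ₁, ⟨c0, c1⟩, hlip, hmem, hmod, h0, h1, h1'⟩ := exists_maps_more hg hP
  have hl0 : ∀ u v : ℕ → Bool, ∀ n, (∀ i < n + 1, u i = v i) → κ₀ u n = κ₀ v n :=
    fun u v n h => (hlip u v n h).1
  have hl1 : ∀ u v : ℕ → Bool, ∀ n, (∀ i < n + 1, u i = v i) → κ₁ u n = κ₁ v n :=
    fun u v n h => (hlip u v n h).2
  have hD : Dcd (fun x v => ∃ e, g e (KK κ₀ κ₁ v) = x)
      (cdec (CF fun e v => g e (KK κ₀ κ₁ v))) := by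
    refine dcd_of hmod fun i j v v' h => ?_
    have h2 : R (KK κ₀ κ₁ v) (KK κ₀ κ₁ v') :=
      hEq.trans ((hmem v _).2 ⟨i, rfl⟩) (by rw [h]; exact hEq.symm ((hmem v' _).2 ⟨j, rfl⟩))
    rw [← join_part v, ← join_part v', h0 v _ _ h2, h1 v _ _ h2]
  have hE : ∀ β < 2, ∃ d, Dcd (Enc R κ₀ κ₁ β) d := by
    intro β hβ
    have h2 : (fun x z => ∃ v, (∃ e, g e (KK κ₀ κ₁ v) = x) ∧ part β v = z) =
        Enc R κ₀ κ₁ β := by
      funext x z
      refine propext (exists_congr fun v => and_congr_left fun _ => (hmem v x).symm)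
    exact ⟨_, h2 ▸ hD.ext hβ⟩
  have henc : ∀ (u z x : ℕ → Bool), R x (join (κ₀ u) (κ₁ z)) →
      Enc R κ₀ κ₁ 0 x u ∧ Enc R κ₀ κ₁ 1 x z := by
    intro u z x h
    refine ⟨⟨join u z, ?_, part_join_zero _ _⟩, ⟨join u z, ?_, part_join_one _ _⟩⟩ <;>
    · rw [KK_join]
      exact hEq.symm h
  have hown : ∀ (u u' z x : ℕ → Bool), part 0 x = κ₀ u → R x (join (κ₀ u') (κ₁ z)) → u' = u := by
    intro u u' z x hx h
    have h2 : R (KK κ₀ κ₁ (join u' z)) (join (κ₀ u) (part 1 x)) := by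
      rw [KK_join, ← hx, join_part]
      exact hEq.symm h
    have h3 := h0 _ _ _ h2
    rwa [part_join_zero] at h3
  refine ⟨κ₀, κ₁, c0, c1, fun u u' h => (hown u' u (part 1 (join (κ₀ u) u)) (join (κ₀ u)
    (κ₁ (part 1 (join (κ₀ u) u)))) (by rw [part_join_zero, h]) (hEq.refl _)), ?_,
    fun K hK1 hK2 A => ⟨fun x y hxy hx u z h =>
    hx u z (hEq.trans hxy h), ?_, ?_⟩⟩
  · rintro z ⟨u, hu⟩
    have h2 : ∀ z', z' = z := by
      intro z'
      have h3 : R (KK κ₀ κ₁ (join u z')) (join (κ₁ z) (κ₁ z')) := by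
        rw [KK_join]
        exact hEq.symm (hu (κ₁ z'))
      have h4 := h1' _ _ _ h3
      rwa [part_join_one] at h4
    have h3 := congrFun ((h2 fun _ => true).trans (h2 fun _ => false).symm) 0
    simp at h3
  · rw [winsI_iff, winsI_iff]
    constructor
    · rintro ⟨s, hs⟩
      obtain ⟨d, hd⟩ := hE 0 (by omega)
      refine wins_of_good hd (lip_XX (s := s) (β := 0) hl1) fun z => ?_
      obtain ⟨h2, h3⟩ := hs (XX s κ₁ 0 z) (XX_own (by omega) z)
      have h4 : part 1 (XX s κ₁ 0 z) = κ₁ z := XX_opp (β := 0) (by omega) z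
      obtain ⟨u, hu⟩ := hK2 _ h2 ⟨z, h4.symm⟩
      have h5 := hu (κ₁ z)
      rw [← h4, join_part, h4] at h5
      exact ⟨u, (henc u z _ h5).1, (good_iff A u z).1 (h3 u z h5)⟩
    · rintro ⟨g', hg'⟩
      obtain ⟨d, hd⟩ := hE 1 (by omega)
      refine ⟨fun L => κ₀ (uu d g' 0 fun i => L.getD i false) (L.length / 2), fun x hx => ?_⟩
      have h2 : part 0 x = κ₀ (uu d g' 0 x) := own_eq (by omega) hl0 hx
      refine ⟨?_, fun u z h => ?_⟩
      · refine hK1 _ ?_
        rw [h2]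
        exact ⟨_, rfl⟩
      · have h3 := hown _ _ _ _ h2 h
        rw [h3, good_iff]
        exact good_own hd (by omega) hg' (henc u z x h).2
  · rw [winsII_iff, winsII_iff]
    constructor
    · rintro ⟨s, hs⟩
      obtain ⟨d, hd⟩ := hE 1 (by omega)
      refine wins_of_good hd (lip_XX (s := s) (β := 1) hl0) fun u => ?_
      have h2 := hs (XX s κ₀ 1 u) (XX_own (by omega) u)
      have h4 : part 0 (XX s κ₀ 1 u) = κ₀ u := XX_opp (β := 1) (by omega) u
      have h3 : ∃ u' z, R (XX s κ₀ 1 u) (join (κ₀ u') (κ₁ z)) ∧ ¬ Good A u' z := by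
        by_contra h3
        push Not at h3
        refine h2 ⟨hK1 _ ?_, h3⟩
        rw [h4]
        exact ⟨_, rfl⟩
      obtain ⟨u', z, h5, h6⟩ := h3
      have h7 := hown _ _ _ _ h4 h5
      subst h7
      exact ⟨z, (henc _ z _ h5).2, (not_good_iff A _ z).1 h6⟩
    · rintro ⟨g', hg'⟩
      obtain ⟨d, hd⟩ := hE 0 (by omega)
      refine ⟨fun L => κ₁ (uu d g' 1 fun i => L.getD i false) (L.length / 2), fun x hx => ?_⟩
      have h2 : part 1 x = κ₁ (uu d g' 1 x) := own_eq (by omega) hl1 hx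
      rintro ⟨h3, h4⟩
      obtain ⟨u, hu⟩ := hK2 _ h3 ⟨_, h2.symm⟩
      have h5 := hu (part 1 x)
      rw [join_part, h2] at h5
      exact (not_good_iff A u _).2 (good_own hd (by omega) hg' (henc u _ x h5).1) (h4 u _ h5)

/-- Membership in `B` depends only on the unordered pair of the Turing degrees of the sequences
of the moves of the two players. -/
def UnorderedInvariant (B : Set (ℕ → Bool)) : Prop :=
  ∀ x y, (SameDegree (part 0 x) (part 0 y) ∧ SameDegree (part 1 x) (part 1 y)) ∨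
    (SameDegree (part 0 x) (part 1 y) ∧ SameDegree (part 1 x) (part 0 y)) → x ∈ B → y ∈ B

/-- At least one of the two players plays a sequence in `C`. -/
def OneIn (C : Set (ℕ → Bool)) : Set (ℕ → Bool) := {x | part 0 x ∈ C ∨ part 1 x ∈ C}

theorem sameDegree_swap (y z : ℕ → Bool) : SameDegree (join y z) (join z y) :=
  ⟨tLe_join_of (tLe_join_right z y) (tLe_join z y), tLe_join_of (tLe_join_right y z) (tLe_join y z)⟩

theorem sameDegree_join {y y' z z' : ℕ → Bool} (h : SameDegree y y') (h' : SameDegree z z') :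
    SameDegree (join y z) (join y' z') :=
  ⟨tLe_join_of (TuringReducible.trans h.1 (tLe_join y' z'))
    (TuringReducible.trans h'.1 (tLe_join_right y' z')),
    tLe_join_of (TuringReducible.trans h.2 (tLe_join y z))
    (TuringReducible.trans h'.2 (tLe_join_right y z))⟩

theorem unorderedInvariant {C B : Set (ℕ → Bool)} (hC : InvariantFor SameDegree C)
    (hB : InvariantFor SameDegree B) : UnorderedInvariant (OneIn C ∩ B) := by
  rintro x y (⟨h1, h2⟩ | ⟨h1, h2⟩) ⟨h3, h4⟩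
  · refine ⟨h3.imp (hC _ _ h1) (hC _ _ h2), hB x y ?_ h4⟩
    rw [← join_part x, ← join_part y]
    exact sameDegree_join h1 h2
  · refine ⟨(h3.imp (hC _ _ h1) (hC _ _ h2)).symm, hB x y ?_ h4⟩
    rw [← join_part x, ← join_part y]
    exact equivalence_sameDegree.trans (sameDegree_join h1 h2) (sameDegree_swap _ _)

/-- The case of Turing degrees. -/
theorem main_turing : ∃ C : Set (ℕ → Bool), InvariantFor SameDegree C ∧
    ∀ A : Set (ℕ → Bool), ∃ B : Set (ℕ → Bool), InvariantFor SameDegree B ∧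
      UnorderedInvariant (OneIn C ∩ B) ∧
      (WinsI (OneIn C ∩ B) ↔ WinsI A) ∧ (WinsII (OneIn C ∩ B) ↔ WinsII A) := by
  obtain ⟨κ₀, κ₁, h0, h1, h2, h3, h4⟩ := main genericallyCountable_sameDegree
  have hC : InvariantFor SameDegree (Replaceable SameDegree κ₀) := by
    rw [replaceable_sameDegree]
    rintro x y hxy ⟨u, hu⟩
    exact ⟨u, equivalence_sameDegree.trans (equivalence_sameDegree.symm hxy) hu⟩
  refine ⟨Replaceable SameDegree κ₀, hC, fun A => ?_⟩
  have hK1 : ∀ x, part 0 x ∈ Set.range κ₀ → x ∈ OneIn (Replaceable SameDegree κ₀) := by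
    rintro x ⟨u, hu⟩
    refine Or.inl ?_
    rw [← hu]
    exact ⟨u, fun b => equivalence_sameDegree.refl _⟩
  have hK2 : ∀ x ∈ OneIn (Replaceable SameDegree κ₀), part 1 x ∈ Set.range κ₁ →
      part 0 x ∈ Replaceable SameDegree κ₀ := by
    rintro x (hx | hx) ⟨z, hz⟩
    · exact hx
    · rw [← hz] at hx
      exact absurd hx (h3 z)
  obtain ⟨h5, h6, h7⟩ := h4 _ hK1 hK2 A
  exact ⟨_, h5, unorderedInvariant hC h5, h6, h7⟩

end Pool.Agent.Helper67.SY
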